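import Pool.Agent.H14R2.RC.S.HSL

/-! Task PEEL of helper14 (helper911). -/

namespace RC14
open scoped InnerProductSpace
open Finset

variable {G : Type*} [Group G] [Fintype G]
variable {V : Type*} [NormedAddCommGroup V] [InnerProductSpace ℂ V] [FiniteDimensional ℂ V]

namespace PEEL

open Classical in
theorem sum_update (q : ℕ) (i : Fin q) (F : (Fin q → G) → ℝ) :
    ∑ z : Fin q → G, ∑ g : G, F (Function.update z i g) =
      (Fintype.card G : ℝ) * ∑ z : Fin q → G, F z := by
  rw [Finset.sum_comm]
  -- for each `g`, write `z = (value at i, rest)`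
  have h1 : ∀ z : Fin q → G, ∑ g : G, F (Function.update z i (g * z i)) =
      ∑ g : G, F (Function.update z i g) := by
    intro z
    exact Fintype.sum_equiv (Equiv.mulRight (z i)) _ _ fun g => rfl
  have h2 : ∀ g : G, ∑ z : Fin q → G, F (Function.update z i (g * z i)) = ∑ z, F z := by
    intro g
    let e : (Fin q → G) ≃ (Fin q → G) :=
      { toFun := fun z => Function.update z i (g * z i)
        invFun := fun z => Function.update z i (g⁻¹ * z i)
        left_inv := fun z => by
          ext j
          by_cases h : j = i
          · subst h; simp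
          · simp [h]
        right_inv := fun z => by
          ext j
          by_cases h : j = i
          · subst h; simp
          · simp [h] }
    exact Fintype.sum_equiv e _ _ fun z => rfl
  rw [Finset.sum_comm]
  rw [← Finset.sum_congr rfl fun z _ => h1 z, Finset.sum_comm,
    Finset.sum_congr rfl fun g _ => h2 g, Finset.sum_const, Finset.card_univ, nsmul_eq_mul]

theorem sum_hs_mul (ρ : G →* (V ≃ₗᵢ[ℂ] V)) (hirr : Irr ρ ⊤) (E : Module.End ℂ V)
    (hE : SymIdem E) (A : Module.End ℂ V) :
    ∑ g : G, hs (A * cj ρ E g) =
      (Fintype.card G : ℝ) * (rtr E / Module.finrank ℂ V) * hs A := by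
  have h1 : ∀ g : G, hs (A * cj ρ E g) =
      (LinearMap.trace ℂ V (LinearMap.adjoint A * A * cj ρ E g)).re := by
    intro g
    have hg := cj_proj ρ E hE g
    unfold hs rtr
    have h2 : LinearMap.adjoint (A * cj ρ E g) = cj ρ E g * LinearMap.adjoint A := by
      have := LinearMap.adjoint_comp A (cj ρ E g)
      rw [HSL.adjoint_symm _ hg.1] at this
      exact this
    rw [h2, mul_assoc, LinearMap.trace_mul_comm, ← mul_assoc, mul_assoc, hg.2, ]
  rw [Finset.sum_congr rfl fun g _ => h1 g, ← Complex.re_sum, ← map_sum, ← Finset.mul_sum,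
    SCHUR_avg ρ hirr E, mul_smul_comm, mul_one, map_smul, smul_eq_mul]
  have h3 := (hs_proj E hE).2
  have h4 : (LinearMap.trace ℂ V E) = ((rtr E : ℝ) : ℂ) := by
    unfold rtr
    rw [h3]; simp
  rw [h4]
  have h5 : (Fintype.card G : ℂ) * ((rtr E : ℝ) : ℂ) / (Module.finrank ℂ V : ℂ) =
      (((Fintype.card G : ℝ) * (rtr E / Module.finrank ℂ V) : ℝ) : ℂ) := by
    push_cast; ring
  rw [h5, Complex.re_ofReal_mul]
  rfl

end PEEL

/-- Peeling: `Σ_z hs(∏_i E^{z(s_i)}) ≤ |G|^q · d · τ^{#distinct letters}`, `τ = tr E / d`. -/
theorem PEEL (ρ : G →* (V ≃ₗᵢ[ℂ] V)) (hirr : Irr ρ ⊤) (E : Module.End ℂ V) (hE : SymIdem E)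
    (q : ℕ) (s : List (Fin q)) :
    ∑ z : Fin q → G, hs ((s.map fun i => cj ρ E (z i)).prod) ≤
      (Fintype.card G : ℝ) ^ q * Module.finrank ℂ V *
        (rtr E / Module.finrank ℂ V) ^ s.toFinset.card := by
  classical
  have hτ : 0 ≤ rtr E / Module.finrank ℂ V := by
    have h1 := (hs_proj E hE).1
    rw [← h1]
    have := hs_nonneg E
    positivity
  induction s using List.reverseRecOn with
  | nil =>
    simp only [List.map_nil, List.prod_nil, hs_one, Finset.sum_const, Finset.card_univ,
      List.toFinset_nil, Finset.card_empty, pow_zero, mul_one, nsmul_eq_mul]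
    rw [Fintype.card_fun, Fintype.card_fin]
    push_cast
    exact le_rfl
  | append_singleton s i ih =>
    simp only [List.map_append, List.map_cons, List.map_nil, List.prod_append, List.prod_cons,
      List.prod_nil, mul_one]
    by_cases hi : i ∈ s
    · have hset : (s ++ [i]).toFinset = s.toFinset := by
        ext j
        simp only [List.mem_toFinset, List.mem_append, List.mem_singleton]
        constructor
        · rintro (h | h)
          · exact h
          · rw [h]; exact hi
        · exact Or.inl
      rw [hset]
      refine le_trans (Finset.sum_le_sum fun z _ => ?_) ih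
      exact hs_mul_proj _ _ (cj_proj ρ E hE (z i))
    · have hset : (s ++ [i]).toFinset.card = s.toFinset.card + 1 := by
        have : (s ++ [i]).toFinset = insert i s.toFinset := by
          ext j
          simp only [List.mem_toFinset, List.mem_append, List.mem_singleton, Finset.mem_insert]
          tauto
        rw [this, Finset.card_insert_of_notMem (by simpa using hi)]
      rw [hset, pow_succ]
      have hcard : (0 : ℝ) < Fintype.card G := by exact_mod_cast Fintype.card_pos
      have h1 := PEEL.sum_update q i
        (fun z : Fin q → G => hs ((s.map fun i => cj ρ E (z i)).prod * cj ρ E (z i)))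
      have h2 : ∀ (z : Fin q → G), ∑ g : G, hs ((s.map fun j => cj ρ E
          (Function.update z i g j)).prod * cj ρ E (Function.update z i g i)) =
          (Fintype.card G : ℝ) * (rtr E / Module.finrank ℂ V) *
            hs ((s.map fun i => cj ρ E (z i)).prod) := by
        intro z
        rw [← PEEL.sum_hs_mul ρ hirr E hE]
        refine Finset.sum_congr rfl fun g _ => ?_
        rw [Function.update_self]
        congr 2
        congr 1
        apply List.map_congr_left
        intro j hj
        have hji : j ≠ i := fun h => hi (h ▸ hj)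
        rw [Function.update_of_ne hji]
      rw [Finset.sum_congr rfl fun z _ => h2 z, ← Finset.mul_sum] at h1
      have h3 : ∑ z : Fin q → G, hs ((s.map fun i => cj ρ E (z i)).prod * cj ρ E (z i)) =
          (rtr E / Module.finrank ℂ V) *
            ∑ z : Fin q → G, hs ((s.map fun i => cj ρ E (z i)).prod) := by
        have : (Fintype.card G : ℝ) * ∑ z : Fin q → G,
            hs ((s.map fun i => cj ρ E (z i)).prod * cj ρ E (z i)) =
            (Fintype.card G : ℝ) * ((rtr E / Module.finrank ℂ V) *
            ∑ z : Fin q → G, hs ((s.map fun i => cj ρ E (z i)).prod)) := by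
          rw [← h1]; ring
        exact mul_left_cancel₀ hcard.ne' this
      rw [h3]
      calc (rtr E / Module.finrank ℂ V) * ∑ z : Fin q → G, hs ((s.map fun i => cj ρ E (z i)).prod)
          ≤ (rtr E / Module.finrank ℂ V) * ((Fintype.card G : ℝ) ^ q * Module.finrank ℂ V *
            (rtr E / Module.finrank ℂ V) ^ s.toFinset.card) := mul_le_mul_of_nonneg_left ih hτ
        _ = _ := by ring

end RC14
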